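import Mathlib
import Pool.Agent.Lib_helper38.XA.Defs
import Pool.Agent.Lib_helper94.XO.Pr
set_option autoImplicit false

namespace Pool.Agent.XA

open Finset Filter Pool.Agent.XO

variable {V : Type} [AddCommGroup V] [Fintype V] [DecidableEq V]

theorem a9_mem (A : Finset V) (M : ℕ) (g g' : Fin M → V) (hg : ∀ i, g i ∈ insert 0 A)
    (hg' : ∀ i, g' i ∈ insert 0 A) : ∑ i, g i - ∑ i, g' i ∈ AGs A (2 * M) := by
  classical
  unfold AGs
  rw [Finset.mem_image]
  refine ⟨fun i => Fin.append g (fun k => - g' k) (Fin.cast (two_mul M) i), ?_, ?_⟩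
  · rw [Fintype.mem_piFinset]
    intro i
    have key : ∀ j : Fin (M + M), Fin.append g (fun k => - g' k) j ∈
        insert 0 (A ∪ A.image fun a => -a) := by
      intro j
      refine Fin.addCases (fun k => ?_) (fun k => ?_) j
      · rw [Fin.append_left]
        rcases Finset.mem_insert.1 (hg k) with h | h
        · rw [h]; exact Finset.mem_insert_self _ _
        · exact Finset.mem_insert_of_mem (Finset.mem_union_left _ h)
      · rw [Fin.append_right]
        rcases Finset.mem_insert.1 (hg' k) with h | h
        · rw [h, neg_zero]; exact Finset.mem_insert_self _ _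
        · exact Finset.mem_insert_of_mem (Finset.mem_union_right _
            (Finset.mem_image.2 ⟨_, h, rfl⟩))
    exact key _
  · have h1 : ∑ i : Fin (2 * M), Fin.append g (fun k => - g' k) (Fin.cast (two_mul M) i) =
        ∑ j : Fin (M + M), Fin.append g (fun k => - g' k) j :=
      Fintype.sum_equiv (finCongr (two_mul M)) _ _ (fun i => rfl)
    rw [h1, Fin.sum_univ_add]
    simp only [Fin.append_left, Fin.append_right, Finset.sum_neg_distrib, sub_eq_add_neg]

/-- the difference of two entries with the same support is a signed sum of few accessible elements,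
for every coordinate -/
theorem aunique_gs {p : V → ℝ} {n M : ℕ} (hM : 1 ≤ M) {w θ : ℝ}
    {z : Fin n → V} {c c' : Fin M → V} (hY : ∑ a, c a = ∑ a, c' a) (Hb : Finset (Fin n))
    (hd : ∀ a b, a ≠ b → ∀ j, j ∉ Hb → j ∈ KK p w θ z (c a) → j ∉ KK p w θ z (c b))
    (hd' : ∀ a b, a ≠ b → ∀ j, j ∉ Hb → j ∈ KK p w θ z (c' a) → j ∉ KK p w θ z (c' b))
    {a a' : Fin M} (hK : KK p w θ z (c a) \ Hb = KK p w θ z (c' a') \ Hb) (j : Fin n)
    (hj : j ∉ Hb) : c a - c' a' ∈ AGs (Acl p n w θ (∑ i, z i - z j)) (2 * M) := by
  classical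
  have _ := hM
  have hmem : ∀ x : V, j ∉ KK p w θ z x → x ∈ Acl p n w θ (∑ i, z i - z j) := by
    intro x hx
    by_contra hcon
    exact hx (by unfold KK; rw [Finset.mem_filter]; exact ⟨Finset.mem_univ _, hcon⟩)
  by_cases hja : j ∈ KK p w θ z (c a)
  · have hja' : j ∈ KK p w θ z (c' a') := by
      have h1 : j ∈ KK p w θ z (c a) \ Hb := Finset.mem_sdiff.2 ⟨hja, hj⟩
      rw [hK] at h1
      exact (Finset.mem_sdiff.1 h1).1
    have e1 : ∑ i, Function.update c a 0 i = ∑ i, c i - c a := by
      rw [← Finset.add_sum_erase univ _ (mem_univ a), ← Finset.add_sum_erase univ c (mem_univ a)]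
      rw [Function.update_self, zero_add, add_sub_cancel_left]
      refine Finset.sum_congr rfl fun i hi => ?_
      rw [Function.update_of_ne (Finset.ne_of_mem_erase hi)]
    have e2 : ∑ i, Function.update c' a' 0 i = ∑ i, c' i - c' a' := by
      rw [← Finset.add_sum_erase univ _ (mem_univ a'),
        ← Finset.add_sum_erase univ c' (mem_univ a')]
      rw [Function.update_self, zero_add, add_sub_cancel_left]
      refine Finset.sum_congr rfl fun i hi => ?_
      rw [Function.update_of_ne (Finset.ne_of_mem_erase hi)]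
    have e3 : c a - c' a' = ∑ i, Function.update c' a' 0 i - ∑ i, Function.update c a 0 i := by
      rw [e1, e2, hY]
      abel
    rw [e3]
    refine a9_mem _ M _ _ ?_ ?_
    · intro i
      by_cases hi : i = a'
      · subst hi; rw [Function.update_self]; exact Finset.mem_insert_self _ _
      · rw [Function.update_of_ne hi]
        exact Finset.mem_insert_of_mem (hmem _ (hd' a' i (fun h => hi h.symm) j hj hja'))
    · intro i
      by_cases hi : i = a
      · subst hi; rw [Function.update_self]; exact Finset.mem_insert_self _ _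
      · rw [Function.update_of_ne hi]
        exact Finset.mem_insert_of_mem (hmem _ (hd a i (fun h => hi h.symm) j hj hja))
  · have hja' : j ∉ KK p w θ z (c' a') := by
      intro h
      have h1 : j ∈ KK p w θ z (c' a') \ Hb := Finset.mem_sdiff.2 ⟨h, hj⟩
      rw [← hK] at h1
      exact hja (Finset.mem_sdiff.1 h1).1
    have e3 : c a - c' a' = ∑ i, (Pi.single a (c a) : Fin M → V) i -
        ∑ i, (Pi.single a' (c' a') : Fin M → V) i := by
      rw [Finset.sum_pi_single', Finset.sum_pi_single']
      simp
    rw [e3]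
    refine a9_mem _ M _ _ ?_ ?_
    · intro i
      by_cases hi : i = a
      · subst hi; rw [Pi.single_eq_same]; exact Finset.mem_insert_of_mem (hmem _ hja)
      · rw [Pi.single_eq_of_ne hi]; exact Finset.mem_insert_self _ _
    · intro i
      by_cases hi : i = a'
      · subst hi; rw [Pi.single_eq_same]; exact Finset.mem_insert_of_mem (hmem _ hja')
      · rw [Pi.single_eq_of_ne hi]; exact Finset.mem_insert_self _ _

end Pool.Agent.XA
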